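import Mathlib

/-!
# The identity of Li Shan-lan and the sum `∑ binom(m+r, r)² x^m`
-/

set_option autoImplicit false

open Finset

namespace Pool.Agent.J6H47.PI

/-- `binom(n, r)² = ∑ binom(n, r + i) binom(r + i, r) binom(r, i)` -/
theorem sq_choose (m r : ℕ) : (m + r).choose r ^ 2 =
    ∑ i ∈ range (r + 1), (m + r).choose (r + i) * ((r + i).choose r * r.choose i) := by
  have h1 : (m + r).choose r = ∑ i ∈ range (r + 1), m.choose i * r.choose i := by
    rw [Nat.add_choose_eq, Finset.Nat.sum_antidiagonal_eq_sum_range_succ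
      (fun a b => m.choose a * r.choose b)]
    refine sum_congr rfl fun i hi => ?_
    rw [Nat.choose_symm (Nat.lt_succ_iff.1 (mem_range.1 hi))]
  calc (m + r).choose r ^ 2 = (m + r).choose r * ∑ i ∈ range (r + 1), m.choose i * r.choose i := by
        rw [← h1, sq]
    _ = _ := by
        rw [mul_sum]
        refine sum_congr rfl fun i hi => ?_
        by_cases h : i ≤ m
        · have h2 := Nat.choose_mul (n := m + r) (k := r + i) (s := r) (by omega)
          rw [show m + r - r = m by omega, show r + i - r = i by omega] at h2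
          rw [← mul_assoc, ← mul_assoc, h2]
        · rw [Nat.choose_eq_zero_of_lt (show m < i by omega),
            Nat.choose_eq_zero_of_lt (show m + r < r + i by omega)]
          simp

theorem choose_vand (m r j : ℕ) (hj : j ≤ r) : (m + 2 * r - j).choose (2 * r) =
    ∑ i ∈ range (r + 1), (m + r).choose (r + i) * (r - j).choose (r - i) := by
  rw [show m + 2 * r - j = (m + r) + (r - j) by omega, Nat.add_choose_eq,
    Finset.Nat.sum_antidiagonal_eq_sum_range_succ (fun a b => (m + r).choose a * (r - j).choose b),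
    show (2 * r).succ = r + (r + 1) by omega, sum_range_add]
  rw [sum_eq_zero, zero_add]
  · refine sum_congr rfl fun i hi => ?_
    rw [show 2 * r - (r + i) = r - i by omega]
  · intro i hi
    rw [mem_range] at hi
    rw [Nat.choose_eq_zero_of_lt (show r - j < 2 * r - i by omega), mul_zero]

/-- the identity of Li Shan-lan -/
theorem shan (m r : ℕ) : (m + r).choose r ^ 2 =
    ∑ j ∈ range (r + 1), r.choose j ^ 2 * (m + 2 * r - j).choose (2 * r) := by
  have h1 : ∀ j ∈ range (r + 1), r.choose j ^ 2 * (m + 2 * r - j).choose (2 * r) =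
      ∑ i ∈ range (r + 1), (m + r).choose (r + i) * (r.choose i * (r.choose j * i.choose j)) := by
    intro j hj
    rw [choose_vand m r j (Nat.lt_succ_iff.1 (mem_range.1 hj)), mul_sum]
    refine sum_congr rfl fun i hi => ?_
    have hi' : i ≤ r := Nat.lt_succ_iff.1 (mem_range.1 hi)
    have hj' : j ≤ r := Nat.lt_succ_iff.1 (mem_range.1 hj)
    have h2 : r.choose j * (r - j).choose (r - i) = r.choose i * i.choose j := by
      by_cases h : j ≤ i
      · have h3 := Nat.choose_mul (n := r) (k := i) (s := j) h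
        rw [h3]
        congr 1
        rw [← Nat.choose_symm (show i - j ≤ r - j by omega)]
        congr 1
        omega
      · rw [Nat.choose_eq_zero_of_lt (show i < j by omega),
          Nat.choose_eq_zero_of_lt (show r - j < r - i by omega)]
        simp
    calc r.choose j ^ 2 * ((m + r).choose (r + i) * (r - j).choose (r - i))
        = (m + r).choose (r + i) * (r.choose j * (r.choose j * (r - j).choose (r - i))) := by ring
      _ = _ := by rw [h2]; ring
  rw [sum_congr rfl h1, sum_comm, sq_choose]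
  refine sum_congr rfl fun i hi => ?_
  have hi' : i ≤ r := Nat.lt_succ_iff.1 (mem_range.1 hi)
  rw [← mul_sum, ← mul_sum]
  congr 1
  rw [mul_comm]
  congr 1
  rw [Nat.add_choose_eq, Finset.Nat.sum_antidiagonal_eq_sum_range_succ
      (fun a b => r.choose a * i.choose b)]
  rw [← Finset.sum_range_reflect]
  refine sum_congr rfl fun j hj => ?_
  have hj' : j ≤ r := Nat.lt_succ_iff.1 (mem_range.1 hj)
  rw [show r + 1 - 1 - j = r - j by omega, Nat.choose_symm hj', show r - (r - j) = j by omega]

theorem hasSum_shift {x : ℝ} (h0 : 0 < x) (h1 : x < 1) (r j : ℕ) (hj : j ≤ 2 * r) :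
    HasSum (fun m : ℕ => ((m + 2 * r - j).choose (2 * r) : ℝ) * x ^ m)
      (x ^ j / (1 - x) ^ (2 * r + 1)) := by
  have hx : ‖x‖ < 1 := by rw [Real.norm_of_nonneg h0.le]; exact h1
  have h2 := (hasSum_choose_mul_geometric_of_norm_lt_one (2 * r) hx).mul_left (x ^ j)
  rw [← hasSum_nat_add_iff' j]
  have h3 : ∑ i ∈ range j, ((i + 2 * r - j).choose (2 * r) : ℝ) * x ^ i = 0 := by
    refine sum_eq_zero fun i hi => ?_
    rw [mem_range] at hi
    rw [Nat.choose_eq_zero_of_lt (show i + 2 * r - j < 2 * r by omega)]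
    simp
  rw [h3, sub_zero]
  have h4 : (fun m : ℕ => ((m + j + 2 * r - j).choose (2 * r) : ℝ) * x ^ (m + j)) =
      fun i : ℕ => x ^ j * (((i + 2 * r).choose (2 * r) : ℝ) * x ^ i) := by
    funext m
    rw [show m + j + 2 * r - j = m + 2 * r by omega, pow_add]
    ring
  rw [h4, show x ^ j / (1 - x) ^ (2 * r + 1) = x ^ j * (1 / (1 - x) ^ (2 * r + 1)) by
    rw [mul_one_div]]
  exact h2

theorem sum_sq {x : ℝ} (h0 : 0 < x) (h1 : x < 1) (r : ℕ) :
    (1 - x) ^ (2 * r + 1) * ∑' m : ℕ, ((m + r).choose r : ℝ) ^ 2 * x ^ m =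
      ∑ j ∈ range (r + 1), (r.choose j : ℝ) ^ 2 * x ^ j := by
  have h2 : HasSum (fun m : ℕ => ((m + r).choose r : ℝ) ^ 2 * x ^ m)
      (∑ j ∈ range (r + 1), (r.choose j : ℝ) ^ 2 * (x ^ j / (1 - x) ^ (2 * r + 1))) := by
    have h3 : (fun m : ℕ => ((m + r).choose r : ℝ) ^ 2 * x ^ m) = fun m : ℕ =>
        ∑ j ∈ range (r + 1), (r.choose j : ℝ) ^ 2 *
          (((m + 2 * r - j).choose (2 * r) : ℝ) * x ^ m) := by
      funext m
      have := shan m r
      have h4 : ((m + r).choose r : ℝ) ^ 2 =
          ∑ j ∈ range (r + 1), (r.choose j : ℝ) ^ 2 * ((m + 2 * r - j).choose (2 * r) : ℝ) := by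
        exact_mod_cast this
      rw [h4, sum_mul]
      refine sum_congr rfl fun j _ => ?_
      ring
    rw [h3]
    exact hasSum_sum fun j hj => (hasSum_shift h0 h1 r j (by rw [mem_range] at hj; omega)).mul_left _
  rw [h2.tsum_eq, mul_sum]
  refine sum_congr rfl fun j _ => ?_
  have : (1 - x) ^ (2 * r + 1) ≠ 0 := pow_ne_zero _ (by linarith)
  field_simp

end Pool.Agent.J6H47.PI
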