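import Pool.Agent.J6H39.PI.Stm3
import Pool.Agent.H306R2.EvenConst
import Pool.Agent.J6H47.PI.Shan

/-!
# Two forms of the arithmetic factor
-/

set_option autoImplicit false

namespace Pool.Agent.J6H47.PI

open Pool.Agent.J6H39.PI Pool.Agent.H306R2

theorem t_L3 : S_L3 := by
  intro k hk
  rw [aF_nat k hk]
  refine tprod_congr fun p => ?_
  obtain ⟨r, rfl⟩ : ∃ r, k = r + 1 := ⟨k - 1, by omega⟩
  have hp : (2 : ℝ) ≤ (p : ℝ) := by exact_mod_cast p.2.two_le
  have hx0 : (0 : ℝ) < 1 / (p : ℝ) := by positivity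
  have hx1 : 1 / (p : ℝ) < 1 := by
    rw [div_lt_one (by linarith)]
    linarith
  have h := sum_sq hx0 hx1 r
  simp only [Nat.add_sub_cancel]
  have h1 : ∀ m : ℕ, (m + (r + 1) - 1).choose m = (m + r).choose r := by
    intro m
    rw [show m + (r + 1) - 1 = m + r by omega, Nat.choose_symm_add]
  have h2 : (r + 1) ^ 2 = r ^ 2 + (2 * r + 1) := by ring
  rw [h2, pow_add, mul_assoc]
  congr 1
  have h3 : ∑' m : ℕ, ((m + (r + 1) - 1).choose m : ℝ) ^ 2 * (1 / (p : ℝ)) ^ m =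
      ∑' m : ℕ, ((m + r).choose r : ℝ) ^ 2 * (1 / (p : ℝ)) ^ m :=
    tsum_congr fun m => by rw [h1]
  rw [h3, h]
  refine Finset.sum_congr rfl fun j _ => ?_
  rw [one_div, inv_pow]

end Pool.Agent.J6H47.PI
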